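import Mathlib

/-!
# Definitions: classes of subgroups, orbit category, global dimension
-/

set_option autoImplicit false

open CategoryTheory Limits

namespace Pool.Agent.H7.Gld

/-! ### Conjugacy classes of subgroups -/

/-- Conjugacy of subgroups. -/
def conjSetoid (G : Type) [Group G] : Setoid (Subgroup G) where
  r H K := ∃ g : G, H = K.map (MulAut.conj g).toMonoidHom
  iseqv :=
    { refl := fun H => ⟨1, by ext x; simp⟩
      symm := by
        rintro H K ⟨g, rfl⟩
        refine ⟨g⁻¹, ?_⟩
        ext x
        simp only [Subgroup.mem_map_equiv, MulAut.conj_symm_apply]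
        simp [mul_assoc]
      trans := by
        rintro H K L ⟨g, rfl⟩ ⟨g', rfl⟩
        refine ⟨g * g', ?_⟩
        ext x
        simp only [Subgroup.mem_map_equiv, MulAut.conj_symm_apply]
        simp [mul_assoc] }

/-- The set `Sub_G/G` of conjugacy classes of subgroups of `G`. -/
def SubClass (G : Type) [Group G] : Type := Quotient (conjSetoid G)

section Classes

variable {G : Type} [Group G]

theorem mem_conj (K : Subgroup G) (g x : G) :
    x ∈ K.map (MulAut.conj g).toMonoidHom ↔ g⁻¹ * x * g ∈ K := by
  rw [Subgroup.mem_map_equiv, MulAut.conj_symm_apply]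

/-- `(H) ≤ (K)` iff `H ≤ g K g⁻¹` for some `g`. -/
def leRel (H K : Subgroup G) : Prop := ∃ g : G, H ≤ K.map (MulAut.conj g).toMonoidHom

theorem leRel_congr {H H' K K' : Subgroup G} (h1 : (conjSetoid G) H H') (h2 : (conjSetoid G) K K') :
    leRel H K = leRel H' K' := by
  have key : ∀ {H H' K K' : Subgroup G}, (conjSetoid G) H H' → (conjSetoid G) K K' →
      leRel H K → leRel H' K' := by
    rintro H H' K K' ⟨a, rfl⟩ ⟨b, rfl⟩ ⟨g, hg⟩
    refine ⟨a⁻¹ * g * b, ?_⟩
    intro x hx
    have h3 : a * x * a⁻¹ ∈ H'.map (MulAut.conj a).toMonoidHom := by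
      rw [mem_conj]
      have : a⁻¹ * (a * x * a⁻¹) * a = x := by group
      rwa [this]
    have h4 := hg h3
    rw [mem_conj, mem_conj] at h4
    rw [mem_conj]
    have : (a⁻¹ * g * b)⁻¹ * x * (a⁻¹ * g * b) = b⁻¹ * (g⁻¹ * (a * x * a⁻¹) * g) * b := by group
    rwa [this]
  exact propext ⟨key h1 h2, key ((conjSetoid G).symm h1) ((conjSetoid G).symm h2)⟩

instance : LE (SubClass G) where
  le x y := Quotient.liftOn₂ x y leRel (fun _ _ _ _ h1 h2 => leRel_congr h1 h2)

/-- The class of a subgroup. -/
def cls (H : Subgroup G) : SubClass G := Quotient.mk (conjSetoid G) H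

theorem cls_le_iff (H K : Subgroup G) :
    cls H ≤ cls K ↔ ∃ g : G, H ≤ K.map (MulAut.conj g).toMonoidHom := Iff.rfl

theorem card_conj (K : Subgroup G) (g : G) :
    Nat.card (K.map (MulAut.conj g).toMonoidHom) = Nat.card K :=
  (Nat.card_congr (K.equivMapOfInjective _ (MulAut.conj g).injective).toEquiv).symm

instance [Finite G] : PartialOrder (SubClass G) where
  le_refl := by
    rintro ⟨H⟩
    exact ⟨1, by intro x hx; rw [mem_conj]; simpa using hx⟩
  le_trans := by
    rintro ⟨H⟩ ⟨K⟩ ⟨L⟩ ⟨g, hg⟩ ⟨g', hg'⟩
    refine ⟨g * g', ?_⟩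
    intro x hx
    have h1 := hg hx
    rw [mem_conj] at h1
    have h2 := hg' h1
    rw [mem_conj] at h2 ⊢
    have : (g * g')⁻¹ * x * (g * g') = g'⁻¹ * (g⁻¹ * x * g) * g' := by group
    rwa [this]
  le_antisymm := by
    rintro ⟨H⟩ ⟨K⟩ ⟨g, hg⟩ ⟨g', hg'⟩
    apply Quotient.sound
    refine ⟨g, ?_⟩
    have c1 : Nat.card K ≤ Nat.card H := by
      have := Subgroup.card_le_of_le hg'
      rwa [card_conj] at this
    exact Subgroup.eq_of_le_of_card_ge hg (by rw [card_conj]; exact c1)

end Classes

instance (G : Type) [Group G] [Finite G] : Finite (SubClass G) :=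
  inferInstanceAs (Finite (Quotient (conjSetoid G)))

noncomputable instance (G : Type) [Group G] [Finite G] : Fintype (SubClass G) := Fintype.ofFinite _

noncomputable instance (G : Type) [Group G] : DecidableEq (SubClass G) := Classical.decEq _

open Classical in
noncomputable instance (G : Type) [Group G] [Finite G] : LocallyFiniteOrder (SubClass G) :=
  Fintype.toLocallyFiniteOrder

/-! ### The orbit category -/

/-- The orbit category of `G`: its objects are the transitive `G`-sets `G ⧸ H`, its morphisms
are the `G`-equivariant maps. -/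
structure OrbitCat (G : Type) [Group G] where
  /-- the subgroup `H` such that the object is `G ⧸ H` -/
  sub : Subgroup G

instance (G : Type) [Group G] : SmallCategory (OrbitCat G) where
  Hom H K := (G ⧸ H.sub) →[G] (G ⧸ K.sub)
  id H := MulActionHom.id G
  comp f g := g.comp f

/-! ### Global dimension -/

universe v u

/-- The global dimension of an abelian category: the supremum of the projective dimensions of
its objects. -/
noncomputable def gldim (C : Type u) [Category.{v} C] [Abelian C] : WithBot ℕ∞ :=
  ⨆ X : C, projectiveDimension X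

end Pool.Agent.H7.Gld
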