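import Pool.Agent.H7.GldDefs

set_option autoImplicit false

open CategoryTheory Limits Pool.Agent.H7.Gld

namespace Pool.Agent.H7.Grp

/-! ### Conjugacy classes of subgroups -/

section Classes

variable {G : Type} [Group G]

theorem card_dvd_of_le [Finite G] {H K : Subgroup G} (h : cls H ≤ cls K) :
    Nat.card H ∣ Nat.card K := by
  obtain ⟨g, hg⟩ := h
  have := Subgroup.card_dvd_of_le hg
  rwa [card_conj] at this

end Classes

/-! ### The group of order `56` -/

/-- The elementary abelian group of order `8`. -/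
abbrev V : Type := ZMod 2 × ZMod 2 × ZMod 2

/-- An automorphism of order `7`. -/
def M (v : V) : V := (v.2.2, v.1 + v.2.2, v.2.1)

/-- The action of `ZMod 7`. -/
def act (i : ZMod 7) (v : V) : V := M^[i.val] v

theorem act_zero (v : V) : act 0 v = v := rfl

theorem act_add' : ∀ (i j : ZMod 7) (v : V), act (i + j) v = act i (act j v) := by decide +kernel

theorem act_map_add : ∀ (i : ZMod 7) (v w : V), act i (v + w) = act i v + act i w := by
  decide +kernel

theorem D1 : ∀ x : V, x ≠ 0 → ∃ k : ZMod 7, act k (1, 0, 0) = x := by decide +kernel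

/-- The standard plane. -/
def pl (v : V) : Prop := v.2.2 = 0

instance : DecidablePred pl := fun v => inferInstanceAs (Decidable (v.2.2 = 0))

set_option synthInstance.maxSize 100000 in
theorem D2 : ∀ x y : V, x ≠ 0 → y ≠ 0 → x ≠ y → ∃ k : ZMod 7, ∀ v : V,
    pl v ↔ (act k v = 0 ∨ act k v = x ∨ act k v = y ∨ act k v = x + y) := by decide +kernel

set_option synthInstance.maxSize 100000 in
theorem D3 : ∀ x y z : V, x ≠ 0 → y ≠ 0 → x ≠ y → z ≠ 0 → z ≠ x → z ≠ y → z ≠ x + y →
    ∀ w : V, w = 0 ∨ w = x ∨ w = y ∨ w = x + y ∨ w = z ∨ w = x + z ∨ w = y + z ∨ w = x + y + z := by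
  decide +kernel

theorem D4 : ∀ i : ZMod 7, i ≠ 0 → ∀ v : V, ∃ t : V, t + v + act i t = 0 := by decide +kernel

theorem D5 : ∀ v w : V, v ≠ 0 → w ≠ 0 → ∃ k : ZMod 7, act k v = w := by decide +kernel

/-- The group `V ⋊ ZMod 7` of order `56`. -/
@[ext]
structure Aff where
  /-- the rotation part -/
  i : ZMod 7
  /-- the translation part -/
  v : V
deriving DecidableEq, Fintype

instance : Mul Aff := ⟨fun x y => ⟨x.i + y.i, x.v + act x.i y.v⟩⟩
instance : One Aff := ⟨⟨0, 0⟩⟩
instance : Inv Aff := ⟨fun x => ⟨-x.i, act (-x.i) (-x.v)⟩⟩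

theorem mul_i (x y : Aff) : (x * y).i = x.i + y.i := rfl
theorem mul_v (x y : Aff) : (x * y).v = x.v + act x.i y.v := rfl
theorem one_i : (1 : Aff).i = 0 := rfl
theorem one_v : (1 : Aff).v = 0 := rfl
theorem inv_i (x : Aff) : (x⁻¹).i = -x.i := rfl
theorem inv_v (x : Aff) : (x⁻¹).v = act (-x.i) (-x.v) := rfl

theorem act_zero' (i : ZMod 7) : act i 0 = 0 := by
  have h := act_map_add i 0 0
  rw [add_zero] at h
  exact left_eq_add.1 h

instance : Group Aff where
  mul_assoc x y z := by
    ext1
    · simp only [mul_i, add_assoc]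
    · simp only [mul_v, mul_i, act_map_add, act_add', add_assoc]
  one_mul x := by
    ext1
    · simp only [mul_i, one_i, zero_add]
    · simp only [mul_v, one_v, one_i, act_zero, zero_add]
  mul_one x := by
    ext1
    · simp only [mul_i, one_i, add_zero]
    · simp only [mul_v, one_v, act_zero', add_zero]
  inv_mul_cancel x := by
    ext1
    · simp only [mul_i, inv_i, one_i, neg_add_cancel]
    · simp only [mul_v, inv_v, inv_i, one_v]
      rw [← act_map_add, neg_add_cancel, act_zero']

/-- translation by `v`. -/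
def tr (v : V) : Aff := ⟨0, v⟩

/-- conjugating a translation. -/
theorem conj_tr (g : Aff) (v : V) : g * tr v * g⁻¹ = tr (act g.i v) := by
  ext1
  · simp only [mul_i, inv_i, tr, add_zero, add_neg_cancel]
  · simp only [mul_v, mul_i, inv_v, tr, add_zero]
    rw [← act_add', add_neg_cancel, act_zero]
    abel

theorem conj_tr' (g : Aff) (v : V) : g⁻¹ * tr v * g = tr (act (-g.i) v) := by
  have := conj_tr g⁻¹ v
  rwa [inv_inv, inv_i] at this

/-- The subgroup of translations by a set closed under addition. -/
def trSub (U : Set V) (h0 : (0 : V) ∈ U) (hadd : ∀ x ∈ U, ∀ y ∈ U, x + y ∈ U) : Subgroup Aff where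
  carrier := {x | x.i = 0 ∧ x.v ∈ U}
  one_mem' := ⟨rfl, h0⟩
  mul_mem' := by
    rintro x y ⟨hx, hxU⟩ ⟨hy, hyU⟩
    refine ⟨by rw [mul_i, hx, hy, add_zero], ?_⟩
    rw [mul_v, hx, act_zero]
    exact hadd _ hxU _ hyU
  inv_mem' := by
    rintro x ⟨hx, hxU⟩
    refine ⟨by rw [inv_i, hx, neg_zero], ?_⟩
    rw [inv_v, hx, neg_zero, act_zero]
    have : ∀ v : V, -v = v := by decide
    rw [this]; exact hxU

set_option synthInstance.maxSize 100000 in
theorem D6 : ∀ x y : V, (x = 0 ∨ x = (1, 0, 0)) → (y = 0 ∨ y = (1, 0, 0)) →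
    (x + y = 0 ∨ x + y = (1, 0, 0)) := by decide +kernel

/-- The standard subgroups. -/
def s1 : Subgroup Aff := trSub {v | v = 0 ∨ v = (1, 0, 0)} (Or.inl rfl) (by
  intro x hx y hy
  exact D6 x y hx hy)

/-- The standard plane as a subgroup. -/
def s2 : Subgroup Aff := trSub {v | pl v} rfl (by
  intro x hx y hy
  have : ∀ x y : V, pl x → pl y → pl (x + y) := by decide
  exact this x y hx hy)

/-- All translations. -/
def s3 : Subgroup Aff := trSub Set.univ trivial (fun _ _ _ _ => trivial)

/-- The stabilizer of the origin. -/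
def s4 : Subgroup Aff where
  carrier := {x | x.v = 0}
  one_mem' := rfl
  mul_mem' := by
    intro x y hx hy
    have hx' : x.v = 0 := hx
    have hy' : y.v = 0 := hy
    show (x * y).v = 0
    rw [mul_v, hx', hy', act_zero', add_zero]
  inv_mem' := by
    intro x hx
    have hx' : x.v = 0 := hx
    show (x⁻¹).v = 0
    rw [inv_v, hx', neg_zero, act_zero']

/-- The six standard subgroups. -/
def std : Fin 6 → Subgroup Aff := ![⊥, s1, s2, s3, s4, ⊤]

/-- Their orders. -/
def ord : Fin 6 → ℕ := ![1, 2, 4, 8, 7, 56]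

theorem card_s1 : Nat.card s1 = 2 := by
  have : Nat.card s1 = Nat.card {x : Aff // x.i = 0 ∧ (x.v = 0 ∨ x.v = (1, 0, 0))} := rfl
  rw [this, Nat.card_eq_fintype_card]
  decide +kernel

theorem card_s2 : Nat.card s2 = 4 := by
  have : Nat.card s2 = Nat.card {x : Aff // x.i = 0 ∧ pl x.v} := rfl
  rw [this, Nat.card_eq_fintype_card]
  decide +kernel

theorem card_s3 : Nat.card s3 = 8 := by
  have : Nat.card s3 = Nat.card {x : Aff // x.i = 0 ∧ x.v ∈ (Set.univ : Set V)} := rfl
  rw [this]
  have h2 : Nat.card {x : Aff // x.i = 0 ∧ x.v ∈ (Set.univ : Set V)}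
      = Nat.card {x : Aff // x.i = 0} := Nat.card_congr
    (Equiv.subtypeEquivRight (fun x => by simp))
  rw [h2, Nat.card_eq_fintype_card]
  decide +kernel

theorem card_s4 : Nat.card s4 = 7 := by
  have : Nat.card s4 = Nat.card {x : Aff // x.v = 0} := rfl
  rw [this, Nat.card_eq_fintype_card]
  decide +kernel

theorem card_top' : Nat.card (⊤ : Subgroup Aff) = 56 := by
  rw [Subgroup.card_top, Nat.card_eq_fintype_card]
  decide +kernel

theorem card_std (j : Fin 6) : Nat.card (std j) = ord j := by
  fin_cases j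
  · exact Subgroup.card_bot
  · exact card_s1
  · exact card_s2
  · exact card_s3
  · exact card_s4
  · exact card_top'

theorem mem_s1 (x : Aff) : x ∈ s1 ↔ x.i = 0 ∧ (x.v = 0 ∨ x.v = (1, 0, 0)) := Iff.rfl
theorem mem_s2 (x : Aff) : x ∈ s2 ↔ x.i = 0 ∧ pl x.v := Iff.rfl
theorem mem_s3 (x : Aff) : x ∈ s3 ↔ x.i = 0 := ⟨fun h => h.1, fun h => ⟨h, trivial⟩⟩
theorem mem_s4 (x : Aff) : x ∈ s4 ↔ x.v = 0 := Iff.rfl

theorem std_le (i j : Fin 6) (h : ord i ∣ ord j) : std i ≤ std j := by
  have h12 : s1 ≤ s2 := by
    intro x hx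
    rw [mem_s1] at hx
    rw [mem_s2]
    refine ⟨hx.1, ?_⟩
    rcases hx.2 with h | h <;> rw [h] <;> rfl
  have h23 : s2 ≤ s3 := by
    intro x hx
    rw [mem_s2] at hx
    rw [mem_s3]
    exact hx.1
  fin_cases i <;> fin_cases j <;> first
    | exact bot_le
    | exact le_top
    | exact le_rfl
    | exact h12
    | exact h23
    | exact h12.trans h23
    | (exfalso; revert h; decide)

theorem cls_std_le (i j : Fin 6) : cls (std i) ≤ cls (std j) ↔ ord i ∣ ord j := by
  constructor
  · intro h
    have := card_dvd_of_le h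
    rwa [card_std, card_std] at this
  · intro h
    refine ⟨1, ?_⟩
    intro x hx
    rw [mem_conj]
    simpa using std_le i j h hx

/-! ### Classification of the subgroups -/

theorem exists_i_eq (H : Subgroup Aff) (h : Aff) (hh : h ∈ H) (hi : h.i ≠ 0) (c : ZMod 7) :
    ∃ g ∈ H, g.i = c := by
  have hpow : ∀ n : ℕ, (h ^ n).i = n * h.i := by
    intro n
    induction n with
    | zero => simp [one_i]
    | succ n ih => rw [pow_succ, mul_i, ih]; push_cast; ring
  have : Fact (Nat.Prime 7) := ⟨by norm_num⟩
  refine ⟨h ^ (c * h.i⁻¹).val, H.pow_mem hh _, ?_⟩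
  rw [hpow, ZMod.natCast_zmod_val, mul_assoc, inv_mul_cancel₀ hi, mul_one]

theorem exists_vi_eq (H : Subgroup Aff) (h : Aff) (hh : h ∈ H) (hi : h.i ≠ 0) (hv : h.v = 0)
    (c : ZMod 7) : (⟨c, 0⟩ : Aff) ∈ H := by
  have hpow : ∀ n : ℕ, (h ^ n).i = n * h.i ∧ (h ^ n).v = 0 := by
    intro n
    induction n with
    | zero => exact ⟨by simp [one_i], rfl⟩
    | succ n ih =>
      refine ⟨?_, ?_⟩
      · rw [pow_succ, mul_i, ih.1]; push_cast; ring
      · rw [pow_succ, mul_v, ih.2, hv, act_zero', add_zero]
  have : Fact (Nat.Prime 7) := ⟨by norm_num⟩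
  have h1 : h ^ (c * h.i⁻¹).val = (⟨c, 0⟩ : Aff) := by
    ext1
    · rw [(hpow _).1, ZMod.natCast_zmod_val, mul_assoc, inv_mul_cancel₀ hi, mul_one]
    · exact (hpow _).2
  rw [← h1]
  exact H.pow_mem hh _

theorem mul_inv_of_i_eq (x g : Aff) (h : x.i = g.i) : x * g⁻¹ = tr (x.v - g.v) := by
  ext1
  · simp only [mul_i, inv_i, tr, h, add_neg_cancel]
  · simp only [mul_v, inv_v, tr]
    rw [← act_add', h, add_neg_cancel, act_zero]
    abel

theorem eq_tr_of_i (x : Aff) (h : x.i = 0) : x = tr x.v := by
  ext1
  · exact h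
  · rfl

theorem classify (H : Subgroup Aff) :
    ∃ (j : Fin 6) (g : Aff), H = (std j).map (MulAut.conj g).toMonoidHom := by
  by_cases hA : ∀ x ∈ H, x.i = 0
  · -- translations only
    by_cases h0 : ∀ v : V, tr v ∈ H → v = 0
    · refine ⟨0, 1, ?_⟩
      show H = (⊥ : Subgroup Aff).map _
      rw [Subgroup.map_bot, Subgroup.eq_bot_iff_forall]
      intro x hx
      have hx' : tr x.v ∈ H := by rw [← eq_tr_of_i x (hA x hx)]; exact hx
      rw [eq_tr_of_i x (hA x hx), h0 _ hx']
      rfl
    · push Not at h0
      obtain ⟨x, hx, hx0⟩ := h0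
      by_cases h1 : ∀ v : V, tr v ∈ H → v = 0 ∨ v = x
      · obtain ⟨k, hk⟩ := D1 x hx0
        refine ⟨1, ⟨k, 0⟩, ?_⟩
        show H = s1.map _
        ext y
        rw [mem_conj, mem_s1]
        constructor
        · intro hy
          have hyt := eq_tr_of_i y (hA y hy)
          rw [hyt] at hy ⊢
          rw [conj_tr']
          refine ⟨rfl, ?_⟩
          show act (-k) y.v = 0 ∨ act (-k) y.v = (1, 0, 0)
          rcases h1 _ hy with h | h
          · left; rw [h, act_zero']
          · right; rw [h, ← hk, ← act_add', neg_add_cancel, act_zero]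
        · rintro ⟨hi, hv⟩
          have hyi : y.i = 0 := by
            simp only [mul_i, inv_i] at hi
            have : -k + y.i + k = y.i := by ring
            rwa [this] at hi
          have hyt := eq_tr_of_i y hyi
          rw [hyt] at hv ⊢
          rw [conj_tr'] at hv
          have hv' : act (-k) y.v = 0 ∨ act (-k) y.v = (1, 0, 0) := hv
          rcases hv' with h | h
          · have : y.v = 0 := by
              have := congrArg (act k) h
              rwa [← act_add', add_neg_cancel, act_zero, act_zero'] at this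
            rw [this]; exact H.one_mem
          · have : y.v = x := by
              have := congrArg (act k) h
              rwa [← act_add', add_neg_cancel, act_zero, hk] at this
            rw [this]; exact hx
      · push Not at h1
        obtain ⟨y, hy, hy0, hyx⟩ := h1
        have hadd : ∀ a b : V, tr a ∈ H → tr b ∈ H → tr (a + b) ∈ H := by
          intro a b ha hb
          have : tr (a + b) = tr a * tr b := by
            ext1
            · rfl
            · rfl
          rw [this]; exact H.mul_mem ha hb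
        by_cases h2 : ∀ v : V, tr v ∈ H → v = 0 ∨ v = x ∨ v = y ∨ v = x + y
        · obtain ⟨k, hk⟩ := D2 x y hx0 hy0 (Ne.symm hyx)
          refine ⟨2, ⟨k, 0⟩, ?_⟩
          show H = s2.map _
          have h2' : ∀ v : V, tr v ∈ H ↔ (v = 0 ∨ v = x ∨ v = y ∨ v = x + y) := by
            intro v
            refine ⟨h2 v, ?_⟩
            rintro (rfl | rfl | rfl | rfl)
            · exact H.one_mem
            · exact hx
            · exact hy
            · exact hadd _ _ hx hy
          ext z
          rw [mem_conj, mem_s2]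
          constructor
          · intro hz
            have hzt := eq_tr_of_i z (hA z hz)
            rw [hzt] at hz ⊢
            rw [conj_tr']
            refine ⟨rfl, ?_⟩
            show pl (act (-k) z.v)
            rw [hk, ← act_add', add_neg_cancel, act_zero]
            exact (h2' _).1 hz
          · rintro ⟨hi, hv⟩
            have hzi : z.i = 0 := by
              simp only [mul_i, inv_i] at hi
              have : -k + z.i + k = z.i := by ring
              rwa [this] at hi
            have hzt := eq_tr_of_i z hzi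
            rw [hzt] at hv ⊢
            rw [conj_tr'] at hv
            have hv' : pl (act (-k) z.v) := hv
            rw [hk, ← act_add', add_neg_cancel, act_zero] at hv'
            exact (h2' _).2 hv'
        · push Not at h2
          obtain ⟨z, hz, hz0, hzx, hzy, hzxy⟩ := h2
          refine ⟨3, 1, ?_⟩
          show H = s3.map _
          have hall : ∀ w : V, tr w ∈ H := by
            intro w
            rcases D3 x y z hx0 hy0 (Ne.symm hyx) hz0 hzx hzy hzxy w with
              h | h | h | h | h | h | h | h <;> rw [h]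
            · exact H.one_mem
            · exact hx
            · exact hy
            · exact hadd _ _ hx hy
            · exact hz
            · exact hadd _ _ hx hz
            · exact hadd _ _ hy hz
            · exact hadd _ _ (hadd _ _ hx hy) hz
          ext w
          rw [mem_conj, mem_s3]
          constructor
          · intro hw
            simp only [mul_i, inv_i, one_i]
            rw [hA w hw]; rfl
          · intro hi
            have hwi : w.i = 0 := by
              simp only [mul_i, inv_i, one_i] at hi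
              have : -0 + w.i + 0 = w.i := by ring
              rwa [this] at hi
            rw [eq_tr_of_i w hwi]
            exact hall _
  · push Not at hA
    obtain ⟨h, hh, hi⟩ := hA
    by_cases h0 : ∀ v : V, tr v ∈ H → v = 0
    · obtain ⟨t, ht⟩ := D4 h.i hi h.v
      refine ⟨4, (tr t)⁻¹, ?_⟩
      show H = s4.map _
      -- the conjugate containing `⟨h.i, 0⟩`
      have key : ∀ x, x ∈ H ↔ (tr t * x * (tr t)⁻¹).v = 0 := by
        let H' : Subgroup Aff := H.map (MulAut.conj (tr t)).toMonoidHom
        have hH' : ∀ x, x ∈ H' ↔ (tr t)⁻¹ * x * tr t ∈ H := fun x => mem_conj H (tr t) x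
        have hneg : ∀ v : V, -v = v := by decide
        have htv : tr t * h * (tr t)⁻¹ = ⟨h.i, 0⟩ := by
          ext1
          · simp only [mul_i, inv_i, tr]; ring
          · simp only [mul_v, mul_i, inv_v, tr, zero_add, neg_zero, act_zero]
            rw [hneg]; exact ht
        have hmem : (⟨h.i, 0⟩ : Aff) ∈ H' := by
          rw [← htv, hH']
          have : (tr t)⁻¹ * (tr t * h * (tr t)⁻¹) * tr t = h := by group
          rwa [this]
        have hall : ∀ c : ZMod 7, (⟨c, 0⟩ : Aff) ∈ H' := exists_vi_eq H' _ hmem hi rfl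
        have h0' : ∀ v : V, tr v ∈ H' → v = 0 := by
          intro v hv
          rw [hH', conj_tr'] at hv
          have hv' : tr v ∈ H := by
            have : act (-(tr t).i) v = v := by
              show act (-0) v = v
              rw [neg_zero, act_zero]
            rwa [this] at hv
          exact h0 v hv'
        have hchar : ∀ x, x ∈ H' ↔ x.v = 0 := by
          intro x
          constructor
          · intro hx
            have h1 := H'.mul_mem hx (H'.inv_mem (hall x.i))
            rw [mul_inv_of_i_eq x ⟨x.i, 0⟩ rfl] at h1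
            have := h0' _ h1
            simpa using this
          · intro hx
            have : x = ⟨x.i, 0⟩ := by
              ext1
              · rfl
              · exact hx
            rw [this]; exact hall _
        intro x
        rw [← hchar, hH']
        have : (tr t)⁻¹ * (tr t * x * (tr t)⁻¹) * tr t = x := by group
        rw [this]
      ext x
      rw [mem_conj, mem_s4, key x, inv_inv]
    · push Not at h0
      obtain ⟨v, hv, hv0⟩ := h0
      refine ⟨5, 1, ?_⟩
      show H = (⊤ : Subgroup Aff).map _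
      have hall : ∀ w : V, tr w ∈ H := by
        intro w
        by_cases hw : w = 0
        · rw [hw]; exact H.one_mem
        · obtain ⟨k, hk⟩ := D5 v w hv0 hw
          obtain ⟨g, hg, hgi⟩ := exists_i_eq H h hh hi k
          have := H.mul_mem (H.mul_mem hg hv) (H.inv_mem hg)
          rwa [conj_tr, hgi, hk] at this
      have htop : H = ⊤ := by
        rw [Subgroup.eq_top_iff']
        intro x
        obtain ⟨g, hg, hgi⟩ := exists_i_eq H h hh hi x.i
        have h1 := mul_inv_of_i_eq x g hgi.symm
        have h2 : x = tr (x.v - g.v) * g := by rw [← h1]; group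
        rw [h2]
        exact H.mul_mem (hall _) hg
      rw [htop]
      ext x
      rw [mem_conj]
      simp

theorem exists_std (c : SubClass Aff) : ∃ j, c = cls (std j) := by
  obtain ⟨H⟩ := c
  obtain ⟨j, g, h⟩ := classify H
  exact ⟨j, Quotient.sound ⟨g, h⟩⟩

/-! ### The three points -/

/-- The points `⟨i, 0⟩ s2` of `Aff ⧸ s2`. -/
def pt (i : Fin 3) : Aff ⧸ s2 := ((⟨(i : ℕ), 0⟩ : Aff) : Aff ⧸ s2)

/-- The involutions in the pairwise intersections of the stabilizers. -/
def li : Fin 3 → V := ![(0, 1, 0), (0, 0, 1), (1, 1, 0)]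

theorem tr_smul_mk (v : V) (g : Aff) :
    (tr v • ((g : Aff) : Aff ⧸ s2) = ((g : Aff) : Aff ⧸ s2)) ↔ pl (act (-g.i) v) := by
  rw [MulAction.Quotient.smul_coe, QuotientGroup.eq]
  have h1 : (tr v • g)⁻¹ * g = (g⁻¹ * tr v * g)⁻¹ := by
    simp only [smul_eq_mul]; group
  rw [h1, inv_mem_iff, conj_tr', mem_s2]
  exact ⟨fun h => h.2, fun h => ⟨rfl, h⟩⟩

theorem li_fix (i : Fin 3) : tr (li i) • pt i = pt i ∧ tr (li i) • pt (i + 1) = pt (i + 1) := by
  unfold pt
  rw [tr_smul_mk, tr_smul_mk]
  revert i
  decide +kernel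

theorem li_move (y : Aff ⧸ s2) : ∃ i : Fin 3, tr (li i) • y ≠ y := by
  obtain ⟨g, rfl⟩ := QuotientGroup.mk_surjective y
  have : ∀ c : ZMod 7, ∃ i : Fin 3, ¬ pl (act (-c) (li i)) := by decide +kernel
  obtain ⟨i, hi⟩ := this g.i
  refine ⟨i, fun h => hi ?_⟩
  exact (tr_smul_mk (li i) g).1 h

end Pool.Agent.H7.Grp
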