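import Mathlib

/-!
# Modules over incidence algebras of small posets

If every point `x` of a finite poset has nothing below it, or its strict lower set is the union of
two principal lower sets with principal intersection, then every module over the rational incidence
algebra has projective dimension at most `2`.
-/

set_option autoImplicit false

open CategoryTheory

namespace Pool.Agent.H7.Inc

section Basic

variable {P : Type} [PartialOrder P] [Fintype P] [LocallyFiniteOrder P]

theorem mul_apply' (f g : IncidenceAlgebra ℚ P) (a b : P) :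
    (f * g) a b = ∑ x, f a x * g x b := by
  rw [IncidenceAlgebra.mul_apply]
  apply Finset.sum_subset (Finset.subset_univ _)
  intro x _ hx
  rw [Finset.mem_Icc, not_and_or] at hx
  rcases hx with hx | hx
  · rw [IncidenceAlgebra.apply_eq_zero_of_not_le hx, zero_mul]
  · rw [IncidenceAlgebra.apply_eq_zero_of_not_le hx, mul_zero]

variable [DecidableEq P] 

open Classical in
/-- Matrix units (zero if `¬ x ≤ y`). -/
noncomputable def E (x y : P) : IncidenceAlgebra ℚ P :=
  ⟨fun a b => if a = x ∧ b = y ∧ x ≤ y then 1 else 0, by
    intro a b hab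
    rw [if_neg]
    rintro ⟨rfl, rfl, h⟩
    exact hab h⟩

open Classical in
theorem E_apply (x y a b : P) : E x y a b = if a = x ∧ b = y ∧ x ≤ y then 1 else 0 := rfl

theorem mul_E (a : IncidenceAlgebra ℚ P) (z x : P) (hzx : z ≤ x) :
    a * E z x = ∑ y, a y z • E y x := by
  ext u w huw
  rw [mul_apply']
  have h1 : ∀ t, a u t * E z x t w = if t = z then (if w = x then a u z else 0) else 0 := by
    intro t
    rw [E_apply]
    by_cases ht : t = z
    · subst ht
      by_cases hw : w = x
      · simp [hw, hzx]
      · simp [hw]
    · simp [ht]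
  rw [Finset.sum_congr rfl (fun t _ => h1 t)]
  rw [Finset.sum_ite_eq' Finset.univ z]
  simp only [Finset.mem_univ, if_true]
  have h2 : (∑ y, a y z • E y x : IncidenceAlgebra ℚ P) u w = ∑ y, (a y z • E y x) u w := by
    induction (Finset.univ : Finset P) using Finset.induction_on with
    | empty => simp
    | insert y s hy ih => rw [Finset.sum_insert hy, Finset.sum_insert hy, ← ih]; rfl
  rw [h2]
  have h3 : ∀ t, (a t z • E t x : IncidenceAlgebra ℚ P) u w
      = if u = t then (if w = x then a u z else 0) else 0 := by
    intro t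
    rw [IncidenceAlgebra.constSMul_apply, E_apply]
    by_cases ht : u = t
    · subst ht
      by_cases hw : w = x
      · by_cases hux : u ≤ x
        · simp [hw, hux]
        · have : a u z = 0 := IncidenceAlgebra.apply_eq_zero_of_not_le (fun h => hux (h.trans hzx)) a
          simp [this]
      · simp [hw]
    · simp [ht]
  rw [Finset.sum_congr rfl (fun t _ => h3 t), Finset.sum_ite_eq Finset.univ u]
  simp

theorem one_eq_sum : (1 : IncidenceAlgebra ℚ P) = ∑ y, E y y := by
  ext u w huw
  have h2 : (∑ y, E y y : IncidenceAlgebra ℚ P) u w = ∑ y, (E y y : IncidenceAlgebra ℚ P) u w := by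
    induction (Finset.univ : Finset P) using Finset.induction_on with
    | empty => simp
    | insert y s hy ih => rw [Finset.sum_insert hy, Finset.sum_insert hy, ← ih]; rfl
  rw [h2, IncidenceAlgebra.one_apply]
  have h3 : ∀ t, (E t t : IncidenceAlgebra ℚ P) u w
      = if u = t then (if u = w then 1 else 0) else 0 := by
    intro t
    rw [E_apply]
    by_cases ht : u = t
    · subst ht
      by_cases hw : u = w
      · simp [hw]
      · simp [hw, Ne.symm hw]
    · simp [ht]
  rw [Finset.sum_congr rfl (fun t _ => h3 t), Finset.sum_ite_eq Finset.univ u]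
  simp

theorem E_mul_E (x y z : P) (hxy : x ≤ y) (hyz : y ≤ z) : E x y * E y z = E x z := by
  rw [mul_E _ _ _ hyz]
  have : ∀ t, (E x y t y • E t z : IncidenceAlgebra ℚ P) = if t = x then E x z else 0 := by
    intro t
    rw [E_apply]
    by_cases ht : t = x
    · subst ht; simp [hxy]
    · simp [ht]
  rw [Finset.sum_congr rfl (fun t _ => this t), Finset.sum_ite_eq' Finset.univ x]
  simp

/-- `N`-valued functions on `P`, as a left module over the incidence algebra. -/
@[nolint unusedArguments]
def Col (P N : Type) : Type := P → N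

variable {N : Type} [AddCommGroup N] [Module ℚ N]

instance : AddCommGroup (Col P N) := inferInstanceAs (AddCommGroup (P → N))

noncomputable instance : SMul (IncidenceAlgebra ℚ P) (Col P N) :=
  ⟨fun a v => fun y => ∑ z, a y z • v z⟩

theorem smul_def (a : IncidenceAlgebra ℚ P) (v : Col P N) (y : P) :
    (a • v) y = ∑ z, a y z • v z := rfl

noncomputable instance : Module (IncidenceAlgebra ℚ P) (Col P N) where
  one_smul v := by
    funext y
    rw [smul_def]
    simp only [IncidenceAlgebra.one_apply, ite_smul, one_smul, zero_smul]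
    exact (Finset.sum_ite_eq Finset.univ y (fun x => v x)).trans (if_pos (Finset.mem_univ y))
  mul_smul a b v := by
    funext y
    rw [smul_def, smul_def]
    simp only [smul_def, mul_apply', Finset.sum_smul, Finset.smul_sum, mul_smul]
    rw [Finset.sum_comm]
  smul_zero a := by
    funext y
    rw [smul_def]
    exact Finset.sum_eq_zero (fun z _ => smul_zero _)
  smul_add a v w := by
    funext y
    show ∑ z, a y z • (v z + w z) = ∑ z, a y z • v z + ∑ z, a y z • w z
    simp only [smul_add, Finset.sum_add_distrib]
  add_smul a b v := by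
    funext y
    show ∑ z, (a y z + b y z) • v z = ∑ z, a y z • v z + ∑ z, b y z • v z
    simp only [add_smul, Finset.sum_add_distrib]
  zero_smul v := by
    funext y
    rw [smul_def]
    exact Finset.sum_eq_zero (fun z _ => zero_smul _ _)

/-- The submodule of functions supported on a lower set. -/
def kD (D : LowerSet P) : Submodule (IncidenceAlgebra ℚ P) (Col P N) where
  carrier := {v | ∀ y, y ∉ D → v y = 0}
  zero_mem' := fun y _ => rfl
  add_mem' := by
    intro v w hv hw y hy
    show v y + w y = 0
    rw [hv y hy, hw y hy, add_zero]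
  smul_mem' := by
    intro a v hv y hy
    rw [smul_def]
    apply Finset.sum_eq_zero
    intro z _
    by_cases hyz : y ≤ z
    · rw [hv z (fun hz => hy (D.lower hyz hz)), smul_zero]
    · rw [IncidenceAlgebra.apply_eq_zero_of_not_le hyz, zero_smul]

theorem mem_kD (D : LowerSet P) (v : Col P N) : v ∈ kD D ↔ ∀ y, y ∉ D → v y = 0 := Iff.rfl

/-- The function with the single value `n` at `x`. -/
def dl (x : P) (n : N) : Col P N := fun y => if y = x then n else 0

theorem E_smul_dl (y x : P) (hyx : y ≤ x) (n : N) : E y x • dl x n = dl y n := by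
  funext w
  rw [smul_def]
  have : ∀ z, E y x w z • (dl x n) z = if z = x then (if w = y then n else 0) else 0 := by
    intro z
    rw [E_apply]
    by_cases hz : z = x
    · subst hz
      by_cases hw : w = y
      · simp [hw, hyx, dl]
      · simp [hw]
    · simp [hz]
  rw [Finset.sum_congr rfl (fun z _ => this z), Finset.sum_ite_eq' Finset.univ x]
  simp [dl]

theorem dl_mem (x : P) (n : N) (D : LowerSet P) (hx : x ∈ D) : dl x n ∈ kD D := by
  intro y hy
  have : y ≠ x := by rintro rfl; exact hy hx
  simp [dl, this]

theorem sum_dl (v : Col P N) : v = ∑ y, dl y (v y) := by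
  funext w
  have h2 : (∑ y, dl y (v y) : Col P N) w = ∑ y, (dl y (v y) : Col P N) w :=
    Finset.sum_apply w Finset.univ (fun y => (dl y (v y) : P → N))
  rw [h2]
  exact ((Finset.sum_ite_eq Finset.univ w (fun x => v x)).trans (if_pos (Finset.mem_univ w))).symm

theorem proj_Iic (x : P) :
    Module.Projective (IncidenceAlgebra ℚ P) (kD (N := N) (LowerSet.Iic x)) := by
  apply Module.Projective.of_lifting_property
  intro M M' _ _ _ _ f g hf
  let _ : Module ℚ M := Module.compHom M (algebraMap ℚ (IncidenceAlgebra ℚ P))
  let _ : Module ℚ M' := Module.compHom M' (algebraMap ℚ (IncidenceAlgebra ℚ P))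
  have hst : ∀ (q : ℚ) (m : M), q • m = (q • (1 : IncidenceAlgebra ℚ P)) • m := by
    intro q m
    show (algebraMap ℚ (IncidenceAlgebra ℚ P) q) • m = _
    rw [Algebra.algebraMap_eq_smul_one]
  have hst' : ∀ (q : ℚ) (m : M'), q • m = (q • (1 : IncidenceAlgebra ℚ P)) • m := by
    intro q m
    show (algebraMap ℚ (IncidenceAlgebra ℚ P) q) • m = _
    rw [Algebra.algebraMap_eq_smul_one]
  -- the rational linear map `n ↦ g (δ_x n)`
  have hxx : x ∈ LowerSet.Iic x := by simp
  let g0 : N →ₗ[ℚ] M' :=
    { toFun := fun n => g ⟨dl x n, dl_mem x n _ hxx⟩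
      map_add' := by
        intro n n'
        rw [← map_add]
        congr 1
        apply Subtype.ext
        funext y
        show (if y = x then n + n' else 0) = (if y = x then n else 0) + (if y = x then n' else 0)
        split_ifs <;> simp
      map_smul' := by
        intro q n
        rw [hst', ← map_smul]
        congr 1
        apply Subtype.ext
        funext y
        show (if y = x then q • n else 0) = ((q • (1 : IncidenceAlgebra ℚ P)) • dl x n) y
        rw [smul_def]
        simp only [IncidenceAlgebra.constSMul_apply, IncidenceAlgebra.one_apply, dl]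
        simp only [smul_eq_mul, mul_ite, mul_one, mul_zero, ite_smul, zero_smul, smul_ite,
          smul_zero]
        exact ((Finset.sum_ite_eq' Finset.univ x (fun z => if y = z then q • n else 0)).trans
          (if_pos (Finset.mem_univ x))).symm }
  let f0 : M →ₗ[ℚ] M' :=
    { toFun := f
      map_add' := map_add f
      map_smul' := by
        intro q m
        rw [hst, map_smul, hst']; rfl }
  obtain ⟨m, hm⟩ := Module.projective_lifting_property f0 g0 hf
  have hm' : ∀ n, f (m n) = g ⟨dl x n, dl_mem x n _ hxx⟩ := fun n => LinearMap.congr_fun hm n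
  have hcomm : ∀ (a : IncidenceAlgebra ℚ P) (q : ℚ) (t : M), a • (q • t) = (q • a) • t := by
    intro a q t
    rw [hst, ← mul_smul, mul_smul_comm, mul_one]
  refine ⟨{ toFun := fun v => ∑ y, E y x • m (v.1 y), map_add' := ?_, map_smul' := ?_ }, ?_⟩
  · intro v w
    rw [← Finset.sum_add_distrib]
    refine Finset.sum_congr rfl (fun y _ => ?_)
    show E y x • m (v.1 y + w.1 y) = _
    rw [map_add, smul_add]
  · intro a v
    show ∑ y, E y x • m ((a • v.1) y) = a • ∑ y, E y x • m (v.1 y)
    rw [Finset.smul_sum]
    have h1 : ∀ z, a • E z x • m (v.1 z) = ∑ y, (a y z • E y x) • m (v.1 z) := by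
      intro z
      by_cases hz : z ≤ x
      · rw [← mul_smul, mul_E a z x hz, Finset.sum_smul]
      · have : v.1 z = 0 := v.2 z (by simpa using hz)
        rw [this]
        simp
    rw [Finset.sum_congr rfl (fun z _ => h1 z), Finset.sum_comm]
    refine Finset.sum_congr rfl (fun y _ => ?_)
    rw [smul_def, map_sum, Finset.smul_sum]
    refine Finset.sum_congr rfl (fun z _ => ?_)
    rw [map_smul, hcomm]
  · apply LinearMap.ext
    intro v
    show f (∑ y, E y x • m (v.1 y)) = g v
    rw [map_sum]
    have h1 : ∀ y, f (E y x • m (v.1 y)) = g (E y x • ⟨dl x (v.1 y), dl_mem x _ _ hxx⟩) := by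
      intro y
      rw [map_smul, hm', map_smul]
    rw [Finset.sum_congr rfl (fun y _ => h1 y), ← map_sum]
    congr 1
    apply Subtype.ext
    rw [AddSubmonoidClass.coe_finsetSum]
    conv_rhs => rw [sum_dl v.1]
    refine Finset.sum_congr rfl (fun y _ => ?_)
    by_cases hy : y ≤ x
    · exact E_smul_dl y x hy _
    · have : v.1 y = 0 := v.2 y (by simpa using hy)
      show E y x • dl x (v.1 y) = dl y (v.1 y)
      rw [this]
      have h0 : ∀ z : P, (dl z (0 : N) : Col P N) = 0 := by
        intro z; funext w; simp only [dl, ite_self]; rfl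
      rw [h0, h0, smul_zero]

theorem kD_mono {D D' : LowerSet P} (h : D ≤ D') : (kD D : Submodule _ (Col P N)) ≤ kD D' := by
  intro v hv y hy
  exact hv y (fun hy' => hy (h hy'))

/-- A short exact sequence of modules from linear maps. -/
theorem shortExact_mk {R : Type} [Ring R] {X₁ X₂ X₃ : Type} [AddCommGroup X₁] [AddCommGroup X₂]
    [AddCommGroup X₃] [Module R X₁] [Module R X₂] [Module R X₃] (f : X₁ →ₗ[R] X₂)
    (g : X₂ →ₗ[R] X₃) (hfg : g.comp f = 0) (hf : Function.Injective f) (hg : Function.Surjective g)
    (hex : ∀ x, g x = 0 → ∃ y, f y = x) : (ShortComplex.moduleCatMk f g hfg).ShortExact where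
  exact := by
    rw [ShortComplex.moduleCat_exact_iff]
    exact hex
  mono_f := (ModuleCat.mono_iff_injective _).2 hf
  epi_g := (ModuleCat.epi_iff_surjective _).2 hg

theorem pd_of_projective {R : Type} [Ring R] {X : Type} [AddCommGroup X] [Module R X]
    (h : Module.Projective R X) (n : ℕ) :
    HasProjectiveDimensionLT (ModuleCat.of R X) (n + 1) := by
  have h1 : Projective (ModuleCat.of R X) := (IsProjective.iff_projective X).1 h
  have h2 : HasProjectiveDimensionLT (ModuleCat.of R X) 1 := inferInstance
  exact hasProjectiveDimensionLT_of_ge _ 1 _ (by omega)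

/-- The local condition on a point of a finite poset: nothing below it, or the strict lower set
is a union of two principal lower sets with principal intersection. -/
def Good (x : P) : Prop :=
  IsMin x ∨ ∃ u v w : P, (∀ y, y < x ↔ y ≤ u ∨ y ≤ v) ∧ (∀ y, y ≤ u ∧ y ≤ v ↔ y ≤ w)

theorem pd_Iio (x : P) (h : Good x) :
    HasProjectiveDimensionLT (ModuleCat.of (IncidenceAlgebra ℚ P)
      (kD (N := N) (LowerSet.Iio x))) 2 := by
  rcases h with h | ⟨u, v, w, h1, h2⟩
  · have : Subsingleton (kD (P := P) (N := N) (LowerSet.Iio x)) := by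
      refine ⟨fun a b => ?_⟩
      have h0 : ∀ a : kD (P := P) (N := N) (LowerSet.Iio x), a.1 = 0 := by
        intro a
        funext y
        exact a.2 y (fun hy => h.not_lt (by simpa using hy))
      exact Subtype.ext ((h0 a).trans (h0 b).symm)
    have hz : Limits.IsZero (ModuleCat.of (IncidenceAlgebra ℚ P)
        (kD (N := N) (LowerSet.Iio x))) := ModuleCat.isZero_of_subsingleton _
    have := hz.hasProjectiveDimensionLT_zero
    exact hasProjectiveDimensionLT_of_ge _ 0 _ (by omega)
  · have hux : LowerSet.Iic u ≤ LowerSet.Iio x := by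
      intro y hy
      have hy' : y ≤ u := by simpa using hy
      simpa using (h1 y).2 (Or.inl hy')
    have hvx : LowerSet.Iic v ≤ LowerSet.Iio x := by
      intro y hy
      have hy' : y ≤ v := by simpa using hy
      simpa using (h1 y).2 (Or.inr hy')
    have hwu : LowerSet.Iic w ≤ LowerSet.Iic u := by
      intro y hy
      have hy' : y ≤ w := by simpa using hy
      simpa using ((h2 y).2 hy').1
    have hwv : LowerSet.Iic w ≤ LowerSet.Iic v := by
      intro y hy
      have hy' : y ≤ w := by simpa using hy
      simpa using ((h2 y).2 hy').2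
    let f : kD (P := P) (N := N) (LowerSet.Iic w) →ₗ[IncidenceAlgebra ℚ P]
        (kD (P := P) (N := N) (LowerSet.Iic u)) × (kD (P := P) (N := N) (LowerSet.Iic v)) :=
      (Submodule.inclusion (kD_mono hwu)).prod (-(Submodule.inclusion (kD_mono hwv)))
    let g : (kD (P := P) (N := N) (LowerSet.Iic u)) × (kD (P := P) (N := N) (LowerSet.Iic v))
        →ₗ[IncidenceAlgebra ℚ P] kD (P := P) (N := N) (LowerSet.Iio x) :=
      (Submodule.inclusion (kD_mono hux)).coprod (Submodule.inclusion (kD_mono hvx))
    have hfg : g.comp f = 0 := by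
      apply LinearMap.ext
      intro a
      apply Subtype.ext
      show a.1 + -a.1 = 0
      exact add_neg_cancel _
    have hf : Function.Injective f := by
      intro a b hab
      have := congrArg (fun t => t.1.1) hab
      exact Subtype.ext this
    have hg : Function.Surjective g := by
      intro c
      classical
      refine ⟨(⟨fun y => if y ≤ u then c.1 y else 0, ?_⟩,
        ⟨fun y => if y ≤ u then 0 else c.1 y, ?_⟩), ?_⟩
      · intro y hy
        have : ¬ y ≤ u := by simpa using hy
        simp [this]
      · intro y hy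
        have hyv : ¬ y ≤ v := by simpa using hy
        by_cases hyu : y ≤ u
        · simp [hyu]
        · have : ¬ y < x := by rw [h1]; tauto
          have h0 : c.1 y = 0 := c.2 y (by simpa using this)
          simp [h0]
      · apply Subtype.ext
        funext y
        show (if y ≤ u then c.1 y else 0) + (if y ≤ u then 0 else c.1 y) = c.1 y
        split_ifs <;> simp
    have hex : ∀ t, g t = 0 → ∃ a, f a = t := by
      rintro ⟨a, b⟩ hab
      have hab' : a.1 + b.1 = 0 := congrArg Subtype.val hab
      have hab2 : b.1 = - a.1 := (neg_eq_of_add_eq_zero_right hab').symm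
      refine ⟨⟨a.1, ?_⟩, ?_⟩
      · intro y hy
        by_cases hyu : y ≤ u
        · have hyv : ¬ y ≤ v := fun hyv => hy (by simpa using (h2 y).1 ⟨hyu, hyv⟩)
          have h0 : b.1 y = 0 := b.2 y (by simpa using hyv)
          have h3 : a.1 y + b.1 y = 0 := congrFun hab' y
          rwa [h0, add_zero] at h3
        · exact a.2 y (by simpa using hyu)
      · apply Prod.ext
        · exact Subtype.ext rfl
        · exact Subtype.ext hab2.symm
    have hse := shortExact_mk f g hfg hf hg hex
    have hp1 : HasProjectiveDimensionLT (ModuleCat.of (IncidenceAlgebra ℚ P)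
        (kD (P := P) (N := N) (LowerSet.Iic w))) 1 := pd_of_projective (proj_Iic w) 0
    have hpu := proj_Iic (P := P) (N := N) u
    have hpv := proj_Iic (P := P) (N := N) v
    have hp2 : HasProjectiveDimensionLT (ModuleCat.of (IncidenceAlgebra ℚ P)
        ((kD (P := P) (N := N) (LowerSet.Iic u)) × (kD (P := P) (N := N) (LowerSet.Iic v)))) 2 :=
      pd_of_projective inferInstance 1
    exact hse.hasProjectiveDimensionLT_X₃ 1 hp1 hp2

/-- Modules on which the incidence algebra acts through the evaluation at `(x, x)`. -/
theorem pd_isotypic (x : P) (h : Good x) [Module (IncidenceAlgebra ℚ P) N]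
    (hN : ∀ (a : IncidenceAlgebra ℚ P) (n : N), a • n = a x x • n) :
    HasProjectiveDimensionLT (ModuleCat.of (IncidenceAlgebra ℚ P) N) 3 := by
  have hle : LowerSet.Iio x ≤ LowerSet.Iic x := by
    intro y hy
    have : y < x := by simpa using hy
    simpa using this.le
  let f : kD (P := P) (N := N) (LowerSet.Iio x) →ₗ[IncidenceAlgebra ℚ P]
      kD (P := P) (N := N) (LowerSet.Iic x) := Submodule.inclusion (kD_mono hle)
  let g : kD (P := P) (N := N) (LowerSet.Iic x) →ₗ[IncidenceAlgebra ℚ P] N :=
    { toFun := fun v => v.1 x
      map_add' := fun v w => rfl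
      map_smul' := by
        intro a v
        show (a • v.1) x = a • v.1 x
        rw [hN, smul_def]
        refine (Finset.sum_eq_single x ?_ ?_)
        · intro z _ hz
          by_cases hzx : z ≤ x
          · have : ¬ x ≤ z := fun hxz => hz (le_antisymm hzx hxz)
            rw [IncidenceAlgebra.apply_eq_zero_of_not_le this, zero_smul]
          · rw [v.2 z (by simpa using hzx), smul_zero]
        · intro hx
          exact absurd (Finset.mem_univ x) hx }
  have hfg : g.comp f = 0 := by
    apply LinearMap.ext
    intro a
    exact a.2 x (by simp)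
  have hf : Function.Injective f := by
    intro a b hab
    exact Subtype.ext (congrArg (fun t => t.1) hab)
  have hg : Function.Surjective g := by
    intro n
    refine ⟨⟨dl x n, dl_mem x n _ (by simp)⟩, ?_⟩
    show dl x n x = n
    simp [dl]
  have hex : ∀ t, g t = 0 → ∃ a, f a = t := by
    intro t ht
    refine ⟨⟨t.1, ?_⟩, rfl⟩
    intro y hy
    by_cases hyx : y = x
    · subst hyx; exact ht
    · have : ¬ y ≤ x := fun hle' => hy (by simpa using lt_of_le_of_ne hle' hyx)
      exact t.2 y (by simpa using this)
  have hse := shortExact_mk f g hfg hf hg hex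
  exact hse.hasProjectiveDimensionLT_X₃ 2 (pd_Iio x h)
    (pd_of_projective (proj_Iic x) 2)

theorem smul_eq_of_minimal {M : Type} [AddCommGroup M] [Module (IncidenceAlgebra ℚ P) M] (x : P)
    (hmin : ∀ y, y < x → ∀ m : M, (E y y : IncidenceAlgebra ℚ P) • m = 0)
    (a : IncidenceAlgebra ℚ P) (m : M) :
    a • (E x x : IncidenceAlgebra ℚ P) • m
      = (a x x • (1 : IncidenceAlgebra ℚ P)) • (E x x : IncidenceAlgebra ℚ P) • m := by
  have h1 : a • (E x x : IncidenceAlgebra ℚ P) • m = ∑ y, (a y x • E y x) • m := by
    rw [← mul_smul, mul_E a x x le_rfl, Finset.sum_smul]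
  rw [h1, Finset.sum_eq_single x]
  · rw [← mul_smul, smul_mul_assoc, one_mul]
  · intro y _ hy
    by_cases hyx : y ≤ x
    · have hlt : y < x := lt_of_le_of_ne hyx hy
      have e1 : (E y x : IncidenceAlgebra ℚ P) = E y y * E y x := (E_mul_E y y x le_rfl hyx).symm
      have e2 : (a y x • E y x : IncidenceAlgebra ℚ P) = E y y * (a y x • E y x) := by
        rw [mul_smul_comm, ← e1]
      rw [e2, mul_smul]
      exact hmin y hlt _
    · rw [IncidenceAlgebra.apply_eq_zero_of_not_le hyx, zero_smul, zero_smul]
  · intro hx
    exact absurd (Finset.mem_univ x) hx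

/-- If every point is good then all modules have projective dimension at most `2`. -/
theorem pd_lt_three (hgood : ∀ x : P, Good x) :
    ∀ (k : ℕ) (M : Type) [AddCommGroup M] [Module (IncidenceAlgebra ℚ P) M] (s : Finset P),
      s.card = k → (∀ y, y ∉ s → ∀ m : M, (E y y : IncidenceAlgebra ℚ P) • m = 0) →
      HasProjectiveDimensionLT (ModuleCat.of (IncidenceAlgebra ℚ P) M) 3 := by
  intro k
  induction k with
  | zero =>
    intro M _ _ s hs hM
    have hs' : s = ∅ := Finset.card_eq_zero.1 hs
    have : Subsingleton M := by
      refine ⟨fun a b => ?_⟩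
      have h0 : ∀ a : M, a = 0 := by
        intro a
        rw [← one_smul (IncidenceAlgebra ℚ P) a, one_eq_sum, Finset.sum_smul]
        exact Finset.sum_eq_zero (fun y _ => hM y (by simp [hs']) a)
      rw [h0 a, h0 b]
    have hz : Limits.IsZero (ModuleCat.of (IncidenceAlgebra ℚ P) M) :=
      ModuleCat.isZero_of_subsingleton _
    have := hz.hasProjectiveDimensionLT_zero
    exact hasProjectiveDimensionLT_of_ge _ 0 _ (by omega)
  | succ k ih =>
    intro M _ _ s hs hM
    have hne : s.Nonempty := by
      rw [← Finset.card_pos]; omega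
    obtain ⟨x, hxmin⟩ := s.exists_minimal hne
    have hxs : x ∈ s := hxmin.1
    have hmin : ∀ y, y < x → ∀ m : M, (E y y : IncidenceAlgebra ℚ P) • m = 0 := by
      intro y hy m
      by_cases hys : y ∈ s
      · exact absurd (hxmin.2 hys hy.le) (not_le_of_gt hy)
      · exact hM y hys m
    -- the submodule `E x x • M`
    let N' : Submodule (IncidenceAlgebra ℚ P) M :=
      { carrier := {m | (E x x : IncidenceAlgebra ℚ P) • m = m}
        zero_mem' := smul_zero _
        add_mem' := by
          intro a b ha hb
          show (E x x : IncidenceAlgebra ℚ P) • (a + b) = a + b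
          rw [smul_add, ha, hb]
        smul_mem' := by
          intro a m hm
          have hm' : (E x x : IncidenceAlgebra ℚ P) • m = m := hm
          show (E x x : IncidenceAlgebra ℚ P) • a • m = a • m
          have h1 := smul_eq_of_minimal x hmin a m
          rw [hm'] at h1
          rw [h1, ← mul_smul, mul_smul_comm, mul_one]
          calc (a x x • E x x : IncidenceAlgebra ℚ P) • m
              = ((a x x • (1 : IncidenceAlgebra ℚ P)) * E x x) • m := by
                rw [smul_mul_assoc, one_mul]
            _ = (a x x • (1 : IncidenceAlgebra ℚ P)) • (E x x : IncidenceAlgebra ℚ P) • m :=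
                mul_smul _ _ _
            _ = _ := by rw [hm'] }
    have hN'mem : ∀ m : M, m ∈ N' ↔ (E x x : IncidenceAlgebra ℚ P) • m = m := fun _ => Iff.rfl
    let _ : Module ℚ N' := Module.compHom N' (algebraMap ℚ (IncidenceAlgebra ℚ P))
    have hN' : ∀ (a : IncidenceAlgebra ℚ P) (n : N'), a • n = a x x • n := by
      intro a n
      have h1 := smul_eq_of_minimal x hmin a n.1
      rw [(hN'mem _).1 n.2] at h1
      apply Subtype.ext
      show a • n.1 = (algebraMap ℚ (IncidenceAlgebra ℚ P) (a x x)) • n.1
      rw [Algebra.algebraMap_eq_smul_one, h1]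
    have hpd1 := pd_isotypic (N := N') x (hgood x) hN'
    have hpd2 : HasProjectiveDimensionLT (ModuleCat.of (IncidenceAlgebra ℚ P) (M ⧸ N')) 3 := by
      refine ih (M ⧸ N') (s.erase x) ?_ ?_
      · rw [Finset.card_erase_of_mem hxs, hs]; rfl
      · intro y hy m
        obtain ⟨m, rfl⟩ := N'.mkQ_surjective m
        rw [← map_smul]
        by_cases hyx : y = x
        · subst hyx
          rw [Submodule.mkQ_apply, Submodule.Quotient.mk_eq_zero, hN'mem, ← mul_smul,
            E_mul_E y y y le_rfl le_rfl]
        · have hys : y ∉ s := fun h => hy (Finset.mem_erase.2 ⟨hyx, h⟩)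
          rw [hM y hys m, map_zero]
    have hse := shortExact_mk N'.subtype N'.mkQ
      (by apply LinearMap.ext; intro n; exact (Submodule.Quotient.mk_eq_zero N').2 n.2)
      N'.injective_subtype N'.mkQ_surjective
      (by
        intro m hm
        exact ⟨⟨m, (Submodule.Quotient.mk_eq_zero N').1 hm⟩, rfl⟩)
    exact hse.hasProjectiveDimensionLT_X₂ 3 hpd1 hpd2

end Basic

end Pool.Agent.H7.Inc
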