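import Pool.Agent.H7.GldDefs

set_option autoImplicit false

open CategoryTheory Limits Pool.Agent.H7.Gld

namespace Pool.Agent.H7.Orb

/-! ### Abelian category generalities -/

section Abelian

universe v u
variable {C : Type u} [Category.{v} C] [Abelian C]

theorem projective_kernel_of_pd {P₁ P₀ : C} (f : P₁ ⟶ P₀) [Projective P₁] [Projective P₀]
    (h : HasProjectiveDimensionLT (cokernel f) 3) : Projective (kernel f) := by
  have e1 : (ShortComplex.mk (Abelian.image.ι f) (cokernel.π f)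
      (kernel.condition (cokernel.π f))).ShortExact :=
    { exact := ShortComplex.exact_kernel (cokernel.π f)
      mono_f := inferInstance
      epi_g := inferInstance }
  have h1 : HasProjectiveDimensionLT (Abelian.image f) 2 :=
    (e1.hasProjectiveDimensionLT_X₃_iff 1 inferInstance).1 h
  have hz : kernel.ι f ≫ Abelian.factorThruImage f = 0 := by
    rw [← cancel_mono (Abelian.image.ι f)]
    simp
  have e2 : (ShortComplex.mk (kernel.ι f) (Abelian.factorThruImage f) hz).ShortExact :=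
    { exact := by
        have hex := ShortComplex.exact_kernel f
        rw [ShortComplex.exact_iff_exact_up_to_refinements] at hex ⊢
        intro A x hx
        exact hex x (by
          have : x ≫ Abelian.factorThruImage f ≫ Abelian.image.ι f = 0 := by
            rw [← Category.assoc]
            show (x ≫ Abelian.factorThruImage f) ≫ Abelian.image.ι f = 0
            have hx' : x ≫ Abelian.factorThruImage f = 0 := hx
            rw [hx', zero_comp]
          rwa [Abelian.image.fac] at this)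
      mono_f := inferInstance
      epi_g := inferInstance }
  have h2 : HasProjectiveDimensionLT (kernel f) 1 :=
    (e2.hasProjectiveDimensionLT_X₃_iff 0 inferInstance).1 h1
  infer_instance

end Abelian

/-! ### Representable functors -/

section Rep

variable {C : Type} [SmallCategory C]

/-- The free rational functor on a presheaf of sets. -/
noncomputable abbrev fr (F : Cᵒᵖ ⥤ Type) : Cᵒᵖ ⥤ ModuleCat.{0} ℚ := F ⋙ ModuleCat.free ℚ

theorem epi_app {F F' : Cᵒᵖ ⥤ ModuleCat.{0} ℚ} (e : F ⟶ F') [Epi e] (X : Cᵒᵖ) :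
    Function.Surjective (e.app X) := by
  have : Epi (e.app X) := inferInstance
  exact (ModuleCat.epi_iff_surjective _).1 this

theorem mono_app {F F' : Cᵒᵖ ⥤ ModuleCat.{0} ℚ} (e : F ⟶ F') [Mono e] (X : Cᵒᵖ) :
    Function.Injective (e.app X) := by
  have : Mono (e.app X) := inferInstance
  exact (ModuleCat.mono_iff_injective _).1 this

/-- Morphisms out of a free functor. -/
noncomputable def repDesc {F : Cᵒᵖ ⥤ Type} {E : Cᵒᵖ ⥤ ModuleCat.{0} ℚ} (τ : ∀ Y, F.obj Y → E.obj Y)
    (hτ : ∀ (Y Z : Cᵒᵖ) (f : Y ⟶ Z) (x : F.obj Y), τ Z (F.map f x) = E.map f (τ Y x)) :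
    fr F ⟶ E where
  app Y := ModuleCat.freeDesc (↾(τ Y))
  naturality Y Z f := by
    apply ModuleCat.free_hom_ext
    intro x
    show ModuleCat.freeDesc (↾(τ Z)) ((ModuleCat.free ℚ).map (F.map f) (ModuleCat.freeMk x)) =
      E.map f (ModuleCat.freeDesc (↾(τ Y)) (ModuleCat.freeMk x))
    rw [ModuleCat.free_map_apply, ModuleCat.freeDesc_apply, ModuleCat.freeDesc_apply]
    exact hτ Y Z f x

theorem repDesc_app {F : Cᵒᵖ ⥤ Type} {E : Cᵒᵖ ⥤ ModuleCat.{0} ℚ} (τ : ∀ Y, F.obj Y → E.obj Y)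
    (hτ : ∀ (Y Z : Cᵒᵖ) (f : Y ⟶ Z) (x : F.obj Y), τ Z (F.map f x) = E.map f (τ Y x))
    (Y : Cᵒᵖ) (x : F.obj Y) : (repDesc τ hτ).app Y (ModuleCat.freeMk x) = τ Y x := by
  show ModuleCat.freeDesc (↾(τ Y)) (ModuleCat.freeMk x) = τ Y x
  rw [ModuleCat.freeDesc_apply]
  rfl

theorem nat_apply {F E : Cᵒᵖ ⥤ ModuleCat.{0} ℚ} (e : F ⟶ E) {Y Z : Cᵒᵖ} (f : Y ⟶ Z)
    (x : F.obj Y) : e.app Z (F.map f x) = E.map f (e.app Y x) := by
  have := congrArg (fun g => g.hom x) (e.naturality f)
  exact this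

theorem projective_rep (X : C) : Projective (fr (yoneda.obj X)) := by
  constructor
  intro E B f e _
  -- lift the universal element
  obtain ⟨a, ha⟩ := epi_app e (Opposite.op X) (f.app (Opposite.op X) (ModuleCat.freeMk (𝟙 X)))
  refine ⟨repDesc (fun Y (p : Y.unop ⟶ X) => E.map p.op a) ?_, ?_⟩
  · intro Y Z g x
    show E.map (g.unop ≫ x).op a = E.map g (E.map x.op a)
    rw [op_comp, Quiver.Hom.op_unop, E.map_comp]
    rfl
  · ext Y : 2
    apply ModuleCat.free_hom_ext
    intro x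
    show e.app Y ((repDesc _ _).app Y (ModuleCat.freeMk x)) = f.app Y (ModuleCat.freeMk x)
    rw [repDesc_app, nat_apply, ha, ← nat_apply]
    congr 1
    show (ModuleCat.free ℚ).map ((yoneda.obj X).map (Quiver.Hom.op x)) (ModuleCat.freeMk (𝟙 X)) = _
    rw [ModuleCat.free_map_apply]
    congr 1
    show x ≫ 𝟙 X = x
    rw [Category.comp_id]

/-- The presheaf of pairs of morphisms to `X`. -/
def pr (X : C) : Cᵒᵖ ⥤ Type where
  obj Y := (Y.unop ⟶ X) × (Y.unop ⟶ X)
  map f := ↾(fun p => (f.unop ≫ p.1, f.unop ≫ p.2))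
  map_id Y := by
    ext p
    · show 𝟙 _ ≫ p.1 = p.1
      rw [Category.id_comp]
    · show 𝟙 _ ≫ p.2 = p.2
      rw [Category.id_comp]
  map_comp f g := by
    ext p
    · show (g.unop ≫ f.unop) ≫ p.1 = g.unop ≫ f.unop ≫ p.1
      rw [Category.assoc]
    · show (g.unop ≫ f.unop) ≫ p.2 = g.unop ≫ f.unop ≫ p.2
      rw [Category.assoc]

/-- The difference morphism. -/
noncomputable def dif (X : C) : fr (pr X) ⟶ fr (yoneda.obj X) :=
  repDesc (F := pr X) (E := fr (yoneda.obj X))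
    (fun Y (p : (Y.unop ⟶ X) × (Y.unop ⟶ X)) =>
      (ModuleCat.freeMk p.1 - ModuleCat.freeMk p.2 : (fr (yoneda.obj X)).obj Y)) (by
    intro Y Z f p
    rw [map_sub]
    show _ = (ModuleCat.free ℚ).map ((yoneda.obj X).map f) (ModuleCat.freeMk p.1) -
      (ModuleCat.free ℚ).map ((yoneda.obj X).map f) (ModuleCat.freeMk p.2)
    rw [ModuleCat.free_map_apply, ModuleCat.free_map_apply]
    rfl)

theorem dif_app (X : C) (Y : Cᵒᵖ) (p q : Y.unop ⟶ X) :
    (dif X).app Y (ModuleCat.freeMk (p, q)) =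
      (ModuleCat.freeMk p - ModuleCat.freeMk q : (fr (yoneda.obj X)).obj Y) := by
  exact repDesc_app (F := pr X) (E := fr (yoneda.obj X)) _ _ Y (p, q)

/-- The morphism of free functors induced by `t : X ⟶ T`. -/
noncomputable abbrev mt {X T : C} (t : X ⟶ T) : fr (yoneda.obj X) ⟶ fr (yoneda.obj T) :=
  Functor.whiskerRight (yoneda.map t) (ModuleCat.free ℚ)

theorem mt_app {X T : C} (t : X ⟶ T) (Y : Cᵒᵖ) (p : Y.unop ⟶ X) :
    (mt t).app Y (ModuleCat.freeMk p) = ModuleCat.freeMk (p ≫ t) := by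
  show (ModuleCat.free ℚ).map ((yoneda.map t).app Y) (ModuleCat.freeMk p) = _
  rw [ModuleCat.free_map_apply]
  rfl

theorem dif_comp_mt {X T : C} (t : X ⟶ T) (hT : ∀ Y : C, Subsingleton (Y ⟶ T)) :
    dif X ≫ mt t = 0 := by
  ext Y : 2
  apply ModuleCat.free_hom_ext
  rintro ⟨p, q⟩
  show (mt t).app Y ((dif X).app Y (ModuleCat.freeMk (p, q))) = 0
  rw [dif_app, map_sub, mt_app, mt_app, (hT _).elim (p ≫ t) (q ≫ t), sub_self]

/-- The total mass of an element. -/
noncomputable def mass {A : Type} (v : A →₀ ℚ) : ℚ := Finsupp.linearCombination ℚ (fun _ : A => (1 : ℚ)) v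

/-- Exactness: elements of total mass zero are differences. -/
theorem exists_of_mass_zero {X : C} (Y : Cᵒᵖ) (v : (Y.unop ⟶ X) →₀ ℚ) (hv : mass v = 0) :
    ∃ w : (fr (pr X)).obj Y, (dif X).app Y w = (v : (fr (yoneda.obj X)).obj Y) := by
  classical
  by_cases hne : Nonempty (Y.unop ⟶ X)
  · obtain ⟨p0⟩ := hne
    -- the submodule of all `v` that differ from a multiple of `p0` by something in the range
    have key : ∀ v : (Y.unop ⟶ X) →₀ ℚ, ∃ w : (fr (pr X)).obj Y,
        (dif X).app Y w = (v - Finsupp.single p0 (mass v) : (Y.unop ⟶ X) →₀ ℚ) := by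
      intro v
      induction v using Finsupp.induction_linear with
      | zero => exact ⟨0, by rw [map_zero]; simp [mass]; rfl⟩
      | add v1 v2 h1 h2 =>
        obtain ⟨w1, hw1⟩ := h1
        obtain ⟨w2, hw2⟩ := h2
        refine ⟨w1 + w2, ?_⟩
        rw [map_add, hw1, hw2]
        have : mass (v1 + v2) = mass v1 + mass v2 := by unfold mass; rw [map_add]
        rw [this, Finsupp.single_add]
        show (v1 - Finsupp.single p0 (mass v1)) + (v2 - Finsupp.single p0 (mass v2)) = _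
        abel
      | single p c =>
        let w0 : (fr (pr X)).obj Y := ModuleCat.freeMk (X := (pr X).obj Y) (p, p0)
        have hw0 : (dif X).app Y w0 =
            (ModuleCat.freeMk p - ModuleCat.freeMk p0 : (fr (yoneda.obj X)).obj Y) :=
          dif_app X Y p p0
        refine ⟨c • w0, ?_⟩
        rw [map_smul, hw0]
        have : mass (Finsupp.single p c) = c := by
          unfold mass; rw [Finsupp.linearCombination_single]; simp
        rw [this]
        have hh : (c • (Finsupp.single p (1 : ℚ) - Finsupp.single p0 1) : (Y.unop ⟶ X) →₀ ℚ)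
            = Finsupp.single p c - Finsupp.single p0 c := by
          rw [smul_sub]; simp
        exact hh
    obtain ⟨w, hw⟩ := key v
    refine ⟨w, ?_⟩
    rw [hw, hv, Finsupp.single_zero, sub_zero]
  · have : v = 0 := by
      ext p
      exact absurd ⟨p⟩ hne
    subst this
    exact ⟨0, map_zero _⟩

theorem mass_of_mt {X T : C} (t : X ⟶ T) (Y : Cᵒᵖ)
    (v : (Y.unop ⟶ X) →₀ ℚ) (hv : (mt t).app Y (v : (fr (yoneda.obj X)).obj Y) = 0) :
    mass v = 0 := by
  have h1 : ∀ v : (Y.unop ⟶ X) →₀ ℚ,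
      mass ((mt t).app Y (v : (fr (yoneda.obj X)).obj Y) : (Y.unop ⟶ T) →₀ ℚ) = mass v := by
    intro v
    show mass (Finsupp.mapDomain (fun p : Y.unop ⟶ X => p ≫ t) v) = mass v
    unfold mass
    rw [Finsupp.linearCombination_mapDomain]
    rfl
  rw [← h1 v, hv]
  unfold mass
  exact map_zero _

theorem lift_triangle {X T : C} (t : X ⟶ T) (hT : ∀ Y : C, Subsingleton (Y ⟶ T))
    (hpd : HasProjectiveDimensionLT (cokernel (mt t)) 3)
    {ι : Type} [Fintype ι] (H : ι → C) (H0 : C) (r : ∀ i, H0 ⟶ H i) (p q : ∀ i, H i ⟶ X)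
    (hsum : ∑ i, (Finsupp.single (r i ≫ p i) (1 : ℚ) - Finsupp.single (r i ≫ q i) 1) = 0) :
    ∃ σ : ∀ i, (fr (pr X)).obj (Opposite.op (H i)),
      (∀ i, (dif X).app (Opposite.op (H i)) (σ i) =
        (ModuleCat.freeMk (p i) - ModuleCat.freeMk (q i) :
          (fr (yoneda.obj X)).obj (Opposite.op (H i)))) ∧
      ∑ i, (fr (pr X)).map (r i).op (σ i) = 0 := by
  have hX := projective_rep X
  have hT' := projective_rep T
  have hK : Projective (kernel (mt t)) := projective_kernel_of_pd (mt t) hpd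
  -- the epimorphism onto the kernel
  let e : fr (pr X) ⟶ kernel (mt t) := kernel.lift (mt t) (dif X) (dif_comp_mt t hT)
  have he : e ≫ kernel.ι (mt t) = dif X := kernel.lift_ι _ _ _
  have hepi : Epi e := by
    have : ∀ Y, Epi (e.app Y) := by
      intro Y
      rw [ModuleCat.epi_iff_surjective]
      intro k
      have hk0 : (mt t).app Y ((kernel.ι (mt t)).app Y k) = 0 := by
        have := congrArg (fun g => (g.app Y).hom k) (kernel.condition (mt t))
        exact this
      obtain ⟨w, hw⟩ := exists_of_mass_zero Y _ (mass_of_mt t Y ((kernel.ι (mt t)).app Y k) hk0)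
      refine ⟨w, ?_⟩
      apply mono_app (kernel.ι (mt t)) Y
      rw [← hw, ← he]
      rfl
    exact NatTrans.epi_of_epi_app e
  let s : kernel (mt t) ⟶ fr (pr X) := Projective.factorThru (𝟙 _) e
  have hs : s ≫ e = 𝟙 _ := Projective.factorThru_comp _ _
  have hsd : s ≫ dif X = kernel.ι (mt t) := by
    rw [← he, ← Category.assoc, hs, Category.id_comp]
  have hsd' : ∀ (Y : Cᵒᵖ) (k : (kernel (mt t)).obj Y),
      (dif X).app Y (s.app Y k) = (kernel.ι (mt t)).app Y k := by
    intro Y k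
    rw [← hsd]; rfl
  have he' : ∀ (Y : Cᵒᵖ) (w : (fr (pr X)).obj Y),
      (kernel.ι (mt t)).app Y (e.app Y w) = (dif X).app Y w := by
    intro Y w
    rw [← he]; rfl
  let v : ∀ i, (kernel (mt t)).obj (Opposite.op (H i)) := fun i =>
    e.app (Opposite.op (H i)) (ModuleCat.freeMk (p i, q i))
  have hv : ∀ i, (kernel.ι (mt t)).app (Opposite.op (H i)) (v i) =
      (ModuleCat.freeMk (p i) - ModuleCat.freeMk (q i) :
          (fr (yoneda.obj X)).obj (Opposite.op (H i))) := by
    intro i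
    rw [he']
    exact dif_app X (Opposite.op (H i)) (p i) (q i)
  refine ⟨fun i => s.app _ (v i), ?_, ?_⟩
  · intro i
    rw [hsd', hv]
  · have h1 : ∀ i, (fr (pr X)).map (r i).op (s.app (Opposite.op (H i)) (v i)) =
        s.app (Opposite.op H0) ((kernel (mt t)).map (r i).op (v i)) := by
      intro i
      rw [nat_apply]
    rw [Finset.sum_congr rfl (fun i _ => h1 i), ← map_sum]
    have h2 : ∑ i, (kernel (mt t)).map (r i).op (v i) = 0 := by
      apply mono_app (kernel.ι (mt t)) (Opposite.op H0)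
      rw [map_sum, map_zero]
      have h3 : ∀ i, (kernel.ι (mt t)).app (Opposite.op H0) ((kernel (mt t)).map (r i).op (v i)) =
          (Finsupp.single (r i ≫ p i) (1 : ℚ) - Finsupp.single (r i ≫ q i) 1 :
            (H0 ⟶ X) →₀ ℚ) := by
        intro i
        rw [nat_apply, hv, map_sub]
        show (ModuleCat.free ℚ).map ((yoneda.obj X).map (r i).op) (ModuleCat.freeMk (p i)) -
          (ModuleCat.free ℚ).map ((yoneda.obj X).map (r i).op) (ModuleCat.freeMk (q i)) = _
        rw [ModuleCat.free_map_apply, ModuleCat.free_map_apply]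
        rfl
      rw [Finset.sum_congr rfl (fun i _ => h3 i)]
      exact hsum
    rw [h2, map_zero]

theorem dif_app' (X : C) (Y : Cᵒᵖ) (w : ((Y.unop ⟶ X) × (Y.unop ⟶ X)) →₀ ℚ) :
    (dif X).app Y (w : (fr (pr X)).obj Y) =
      (Finsupp.mapDomain Prod.fst w - Finsupp.mapDomain Prod.snd w : (Y.unop ⟶ X) →₀ ℚ) := by
  induction w using Finsupp.induction_linear with
  | zero => rw [Finsupp.mapDomain_zero, Finsupp.mapDomain_zero, sub_zero]; exact map_zero _
  | add v1 v2 h1 h2 =>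
    have e1 : (dif X).app Y ((v1 + v2 : ((Y.unop ⟶ X) × (Y.unop ⟶ X)) →₀ ℚ) : (fr (pr X)).obj Y)
      = (dif X).app Y (v1 : (fr (pr X)).obj Y) + (dif X).app Y (v2 : (fr (pr X)).obj Y) :=
      map_add _ _ _
    rw [e1, h1, h2, Finsupp.mapDomain_add, Finsupp.mapDomain_add]
    have hh : ∀ a b c d : (Y.unop ⟶ X) →₀ ℚ, (a - b) + (c - d) = (a + c) - (b + d) := by
      intro a b c d; abel
    exact hh _ _ _ _
  | single pq c =>
    let w0 : (fr (pr X)).obj Y := ModuleCat.freeMk (X := (pr X).obj Y) pq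
    have hw0 : (dif X).app Y w0 =
        (ModuleCat.freeMk pq.1 - ModuleCat.freeMk pq.2 : (fr (yoneda.obj X)).obj Y) :=
      dif_app X Y pq.1 pq.2
    have e1 : (Finsupp.single pq c : ((Y.unop ⟶ X) × (Y.unop ⟶ X)) →₀ ℚ) = c • w0 := by
      show _ = c • Finsupp.single pq (1 : ℚ)
      rw [Finsupp.smul_single]; simp
    rw [e1]
    have e2 : (dif X).app Y (c • w0) = c • (dif X).app Y w0 := map_smul _ _ _
    rw [e2, hw0, ← e1, Finsupp.mapDomain_single, Finsupp.mapDomain_single]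
    have hh : (c • (Finsupp.single pq.1 (1 : ℚ) - Finsupp.single pq.2 1) : (Y.unop ⟶ X) →₀ ℚ)
        = Finsupp.single pq.1 c - Finsupp.single pq.2 c := by
      rw [smul_sub]; simp
    exact hh

end Rep

/-! ### The orbit category -/

section Orbit

variable {G : Type} [Group G]

/-- The base point of `G ⧸ H`. -/
def bp (H : Subgroup G) : G ⧸ H := ((1 : G) : G ⧸ H)

theorem smul_bp (H : Subgroup G) (g : G) (hg : g ∈ H) : g • bp H = bp H := by
  unfold bp
  rw [MulAction.Quotient.smul_coe, QuotientGroup.eq]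
  simpa using hg

theorem exists_smul_bp (H : Subgroup G) (x : G ⧸ H) : ∃ g : G, x = g • bp H := by
  obtain ⟨g, rfl⟩ := QuotientGroup.mk_surjective x
  refine ⟨g, ?_⟩
  unfold bp
  rw [MulAction.Quotient.smul_coe]
  simp

/-- The equivariant map `G ⧸ H → G ⧸ L` with `1 ↦ y`. -/
def mkHom (H L : Subgroup G) (y : G ⧸ L) (h : ∀ g ∈ H, g • y = y) : (G ⧸ H) →[G] (G ⧸ L) where
  toFun x := Quotient.liftOn' x (fun g => g • y) (by
    intro g g' hg
    have hg' : g⁻¹ * g' ∈ H := QuotientGroup.leftRel_apply.1 hg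
    have := h _ hg'
    show g • y = g' • y
    rw [mul_smul, inv_smul_eq_iff] at this
    exact this.symm)
  map_smul' := by
    intro g x
    obtain ⟨g', rfl⟩ := QuotientGroup.mk_surjective x
    show (g * g') • y = g • g' • y
    rw [mul_smul]

theorem mkHom_bp (H L : Subgroup G) (y : G ⧸ L) (h : ∀ g ∈ H, g • y = y) :
    mkHom H L y h (bp H) = y := by
  show (1 : G) • y = y
  rw [one_smul]

theorem hom_ext_bp {H L : Subgroup G} (f f' : (G ⧸ H) →[G] (G ⧸ L)) (h : f (bp H) = f' (bp H)) :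
    f = f' := by
  apply MulActionHom.ext
  intro x
  obtain ⟨g, rfl⟩ := exists_smul_bp H x
  rw [map_smul, map_smul, h]

theorem hom_fixed {H L : Subgroup G} (f : (G ⧸ H) →[G] (G ⧸ L)) (g : G) (hg : g ∈ H) :
    g • f (bp H) = f (bp H) := by
  rw [← map_smul, smul_bp H g hg]

/-- The pairwise intersections of the stabilizers of three points. -/
def Hi (L : Subgroup G) (pt : Fin 3 → G ⧸ L) (i : Fin 3) : Subgroup G :=
  MulAction.stabilizer G (pt i) ⊓ MulAction.stabilizer G (pt (i + 1))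

/-- A morphism of the orbit category as an equivariant map. -/
def toMap {H K : OrbitCat G} (f : H ⟶ K) : (G ⧸ H.sub) →[G] (G ⧸ K.sub) := f

/-- An equivariant map as a morphism of the orbit category. -/
def ofMap {H K : OrbitCat G} (f : (G ⧸ H.sub) →[G] (G ⧸ K.sub)) : H ⟶ K := f

/-- Evaluation at the base point. -/
def evB {H K : OrbitCat G} (f : H ⟶ K) : G ⧸ K.sub := toMap f (bp H.sub)

theorem evB_ofMap {H K : OrbitCat G} (f : (G ⧸ H.sub) →[G] (G ⧸ K.sub)) :
    evB (ofMap f) = f (bp H.sub) := rfl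

theorem evB_comp {H K M : OrbitCat G} (r : H ⟶ K) (hr : evB r = bp K.sub) (f : K ⟶ M) :
    evB (r ≫ f) = evB f := by
  show toMap f (toMap r (bp H.sub)) = toMap f (bp K.sub)
  congr 1

theorem evB_inj {H K : OrbitCat G} (f f' : H ⟶ K) (h : evB f = evB f') : f = f' :=
  hom_ext_bp (H := H.sub) (L := K.sub) f f' h

theorem evB_fixed {H K : OrbitCat G} (f : H ⟶ K) (g : G) (hg : g ∈ H.sub) :
    g • evB f = evB f := hom_fixed (H := H.sub) (toMap f) g hg

/-- Evaluation of pairs at the base point. -/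
noncomputable def ev {H K : OrbitCat G} (w : ((H ⟶ K) × (H ⟶ K)) →₀ ℚ) :
    ((G ⧸ K.sub) × (G ⧸ K.sub)) →₀ ℚ :=
  Finsupp.mapDomain (fun pq : (H ⟶ K) × (H ⟶ K) => (evB pq.1, evB pq.2)) w

theorem not_pd (L : Subgroup G) (pt : Fin 3 → G ⧸ L)
    (hno : ∀ y : G ⧸ L, ∃ i, ∃ g ∈ Hi L pt i, g • y ≠ y) :
    ∃ F : (OrbitCat G)ᵒᵖ ⥤ ModuleCat.{0} ℚ, ¬ HasProjectiveDimensionLT F 3 := by
  classical
  let X : OrbitCat G := ⟨L⟩
  let T : OrbitCat G := ⟨⊤⟩
  have hT : ∀ Y : OrbitCat G, Subsingleton (Y ⟶ T) := by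
    intro Y
    refine ⟨fun f f' => ?_⟩
    apply evB_inj
    have : Subsingleton (G ⧸ (⊤ : Subgroup G)) := QuotientGroup.subsingleton_quotient_top
    exact Subsingleton.elim (α := G ⧸ (⊤ : Subgroup G)) _ _
  let t : X ⟶ T := ofMap (mkHom L ⊤ (bp ⊤) (by
    intro g _
    exact smul_bp ⊤ g trivial))
  refine ⟨cokernel (mt t), fun hpd => ?_⟩
  let H : Fin 3 → OrbitCat G := fun i => ⟨Hi L pt i⟩
  let H0 : OrbitCat G := ⟨⊥⟩
  have hbot : ∀ {K : Subgroup G} (y : G ⧸ K), ∀ g ∈ (⊥ : Subgroup G), g • y = y := by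
    intro K y g hg
    rw [Subgroup.mem_bot] at hg
    rw [hg, one_smul]
  have hp1 : ∀ i, ∀ g ∈ Hi L pt i, g • pt i = pt i := fun i g hg => (Subgroup.mem_inf.1 hg).1
  have hp2 : ∀ i, ∀ g ∈ Hi L pt i, g • pt (i + 1) = pt (i + 1) :=
    fun i g hg => (Subgroup.mem_inf.1 hg).2
  let r : ∀ i, H0 ⟶ H i := fun i => ofMap (mkHom ⊥ (Hi L pt i) (bp _) (hbot _))
  have hr : ∀ i, evB (r i) = bp (H i).sub := fun i => mkHom_bp _ _ _ (hbot _)
  let p : ∀ i, H i ⟶ X := fun i => ofMap (mkHom (Hi L pt i) L (pt i) (hp1 i))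
  have hp : ∀ i, evB (p i) = pt i := fun i => mkHom_bp _ _ _ (hp1 i)
  let q : ∀ i, H i ⟶ X := fun i => ofMap (mkHom (Hi L pt i) L (pt (i + 1)) (hp2 i))
  have hq : ∀ i, evB (q i) = pt (i + 1) := fun i => mkHom_bp _ _ _ (hp2 i)
  let m : (G ⧸ L) → (H0 ⟶ X) := fun y => ofMap (mkHom ⊥ L y (hbot _))
  have hm : ∀ y, evB (m y) = y := fun y => mkHom_bp _ _ _ (hbot _)
  have hrp : ∀ i, r i ≫ p i = m (pt i) := by
    intro i
    apply evB_inj
    rw [evB_comp _ (hr i), hp, hm]
  have hrq : ∀ i, r i ≫ q i = m (pt (i + 1)) := by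
    intro i
    apply evB_inj
    rw [evB_comp _ (hr i), hq, hm]
  have hsum : ∑ i, (Finsupp.single (r i ≫ p i) (1 : ℚ) - Finsupp.single (r i ≫ q i) 1) = 0 := by
    simp only [hrp, hrq, Fin.sum_univ_three]
    have e : (2 : Fin 3) + 1 = 0 := rfl
    have e' : (0 : Fin 3) + 1 = 1 := rfl
    have e'' : (1 : Fin 3) + 1 = 2 := rfl
    rw [e, e', e'']
    abel
  obtain ⟨σ, hσ1, hσ2⟩ := lift_triangle t hT hpd H H0 r p q hsum
  let σ' : ∀ i, ((H i ⟶ X) × (H i ⟶ X)) →₀ ℚ := σ
  let u : Fin 3 → (((G ⧸ L) × (G ⧸ L)) →₀ ℚ) := fun i => ev (σ' i)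
  -- supports
  have hsupp : ∀ i, ∀ xy ∈ (u i).support, (∀ g ∈ Hi L pt i, g • xy.1 = xy.1) ∧
      (∀ g ∈ Hi L pt i, g • xy.2 = xy.2) := by
    intro i xy hxy
    have := Finsupp.mapDomain_support hxy
    rw [Finset.mem_image] at this
    obtain ⟨pq, _, rfl⟩ := this
    exact ⟨fun g hg => evB_fixed pq.1 g hg, fun g hg => evB_fixed pq.2 g hg⟩
  -- differences
  have hdif : ∀ i, Finsupp.mapDomain Prod.fst (u i) - Finsupp.mapDomain Prod.snd (u i)
      = Finsupp.single (pt i) (1 : ℚ) - Finsupp.single (pt (i + 1)) 1 := by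
    intro i
    have h1 := hσ1 i
    have h1' : (Finsupp.mapDomain Prod.fst (σ' i) - Finsupp.mapDomain Prod.snd (σ' i) :
        (H i ⟶ X) →₀ ℚ) = Finsupp.single (p i) 1 - Finsupp.single (q i) 1 :=
      (dif_app' X (Opposite.op (H i)) (σ' i)).symm.trans h1
    have h2 : Finsupp.mapDomain (evB (H := H i) (K := X)) (Finsupp.mapDomain Prod.fst (σ' i)
        - Finsupp.mapDomain Prod.snd (σ' i)) = Finsupp.mapDomain (evB (H := H i) (K := X))
        (Finsupp.single (p i) 1 - Finsupp.single (q i) 1) := by rw [h1']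
    have hsub : ∀ a b : (H i ⟶ X) →₀ ℚ, Finsupp.mapDomain (evB (H := H i) (K := X)) (a - b)
        = Finsupp.mapDomain evB a - Finsupp.mapDomain evB b := by
      intro a b
      exact map_sub (Finsupp.mapDomain.addMonoidHom (evB (H := H i) (K := X))) a b
    rw [hsub, hsub, Finsupp.mapDomain_single, Finsupp.mapDomain_single, hp, hq,
      ← Finsupp.mapDomain_comp, ← Finsupp.mapDomain_comp] at h2
    rw [← h2]
    simp only [u, ev]
    rw [← Finsupp.mapDomain_comp, ← Finsupp.mapDomain_comp]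
    rfl
  have hzero : ∑ i, u i = 0 := by
    have h1 : ∀ i, u i = ev (H := H0) (K := X) (Finsupp.mapDomain
        (fun pq : (H i ⟶ X) × (H i ⟶ X) => (r i ≫ pq.1, r i ≫ pq.2)) (σ' i)) := by
      intro i
      simp only [u, ev]
      rw [← Finsupp.mapDomain_comp]
      congr 1
      funext pq
      show (evB pq.1, evB pq.2) = (evB (r i ≫ pq.1), evB (r i ≫ pq.2))
      rw [evB_comp _ (hr i), evB_comp _ (hr i)]
    have h2 : ∀ i, (Finsupp.mapDomain
        (fun pq : (H i ⟶ X) × (H i ⟶ X) => (r i ≫ pq.1, r i ≫ pq.2)) (σ' i) :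
          ((H0 ⟶ X) × (H0 ⟶ X)) →₀ ℚ) = (fr (pr X)).map (r i).op (σ i) := fun i => rfl
    have h3 : ∑ i, (Finsupp.mapDomain
        (fun pq : (H i ⟶ X) × (H i ⟶ X) => (r i ≫ pq.1, r i ≫ pq.2)) (σ' i) :
          ((H0 ⟶ X) × (H0 ⟶ X)) →₀ ℚ) = 0 := hσ2
    rw [Finset.sum_congr rfl (fun i _ => h1 i)]
    have h4 : ∑ i, ev (H := H0) (K := X) (Finsupp.mapDomain
        (fun pq : (H i ⟶ X) × (H i ⟶ X) => (r i ≫ pq.1, r i ≫ pq.2)) (σ' i))
        = ev (H := H0) (K := X) (∑ i, Finsupp.mapDomain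
        (fun pq : (H i ⟶ X) × (H i ⟶ X) => (r i ≫ pq.1, r i ≫ pq.2)) (σ' i)) :=
      (map_sum (Finsupp.mapDomain.addMonoidHom
        (fun pq : (H0 ⟶ X) × (H0 ⟶ X) => (evB pq.1, evB pq.2))) _ _).symm
    rw [h4, h3]
    exact Finsupp.mapDomain_zero
  -- the test function
  let χ : (G ⧸ L) → ℚ := fun y =>
    if (∀ g ∈ Hi L pt 0, g • y = y) ∧ (∀ g ∈ Hi L pt 2, g • y = y) then 1 else 0
  have e2 : (2 : Fin 3) + 1 = 0 := rfl
  have e0 : (0 : Fin 3) + 1 = 1 := rfl
  have e1 : (1 : Fin 3) + 1 = 2 := rfl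
  have hχ0 : χ (pt 0) = 1 := by
    have h0 := hp1 0
    have h2 := hp2 2
    rw [e2] at h2
    simp only [χ]
    rw [if_pos ⟨h0, h2⟩]
  have hχ1 : χ (pt 1) = 0 := by
    simp only [χ]
    rw [if_neg]
    rintro ⟨h0, h2⟩
    obtain ⟨i, g, hg, hne⟩ := hno (pt 1)
    have h1 := hp1 1
    fin_cases i
    · exact hne (h0 g hg)
    · exact hne (h1 g hg)
    · exact hne (h2 g hg)
  have key1 : (Finsupp.linearCombination ℚ χ) (Finsupp.mapDomain Prod.fst (u 0)
      - Finsupp.mapDomain Prod.snd (u 0)) = 1 := by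
    rw [hdif 0, map_sub, Finsupp.linearCombination_single, Finsupp.linearCombination_single,
      e0, hχ0, hχ1]
    norm_num
  have key2 : (Finsupp.linearCombination ℚ χ) (Finsupp.mapDomain Prod.fst (u 0)
      - Finsupp.mapDomain Prod.snd (u 0)) = 0 := by
    rw [map_sub, Finsupp.linearCombination_mapDomain, Finsupp.linearCombination_mapDomain,
      Finsupp.linearCombination_apply, Finsupp.linearCombination_apply, Finsupp.sum, Finsupp.sum,
      ← Finset.sum_sub_distrib]
    apply Finset.sum_eq_zero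
    intro xy hxy
    have hx0 := hsupp 0 xy hxy
    have hor : xy ∈ (u 1).support ∨ xy ∈ (u 2).support := by
      by_contra hcon
      push Not at hcon
      have h1 : u 1 xy = 0 := by simpa using hcon.1
      have h2 : u 2 xy = 0 := by simpa using hcon.2
      have h3 := DFunLike.congr_fun hzero xy
      rw [Fin.sum_univ_three] at h3
      simp only [Finsupp.add_apply, Finsupp.coe_zero, Pi.zero_apply, h1, h2, add_zero] at h3
      exact (Finsupp.mem_support_iff.1 hxy) h3
    have hχeq : χ xy.1 = χ xy.2 := by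
      rcases hor with h | h
      · have hx1 := hsupp 1 xy h
        have a1 : χ xy.1 = 0 := by
          simp only [χ]
          rw [if_neg]
          rintro ⟨h0, h2⟩
          obtain ⟨i, g, hg, hne⟩ := hno xy.1
          fin_cases i
          · exact hne (h0 g hg)
          · exact hne (hx1.1 g hg)
          · exact hne (h2 g hg)
        have a2 : χ xy.2 = 0 := by
          simp only [χ]
          rw [if_neg]
          rintro ⟨h0, h2⟩
          obtain ⟨i, g, hg, hne⟩ := hno xy.2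
          fin_cases i
          · exact hne (h0 g hg)
          · exact hne (hx1.2 g hg)
          · exact hne (h2 g hg)
        rw [a1, a2]
      · have hx2 := hsupp 2 xy h
        simp only [χ]
        rw [if_pos ⟨hx0.1, hx2.1⟩, if_pos ⟨hx0.2, hx2.2⟩]
    show (u 0) xy • χ xy.1 - (u 0) xy • χ xy.2 = 0
    rw [hχeq, sub_self]
  rw [key1] at key2
  norm_num at key2

end Orbit

end Pool.Agent.H7.Orb
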